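import Mathlib

set_option autoImplicit false
set_option linter.unusedSectionVars false

open Filter Topology Set Module

namespace Pool.Agent.W740.TC

section

variable {W : Type*} [NormedAddCommGroup W] [NormedSpace ℂ W] [FiniteDimensional ℂ W]

/-- powers of a linear map with small eigenvalues -/
theorem pow_bound (T : End ℂ W) (r : ℝ) (hr : 0 < r)
    (h : ∀ ν : ℂ, T.HasEigenvalue ν → ‖ν‖ < r) :
    ∃ C : ℝ, 0 ≤ C ∧ ∀ (n : ℕ) (v : W), ‖(T ^ n) v‖ ≤ C * r ^ n * ‖v‖ := by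
  rcases subsingleton_or_nontrivial W with hW | hW
  · refine ⟨0, le_rfl, fun n v => ?_⟩
    rw [Subsingleton.elim ((T ^ n) v) 0]
    simp
  have : CompleteSpace W := FiniteDimensional.complete ℂ W
  set a : W →L[ℂ] W := Module.End.toContinuousLinearMap W T with ha
  have hpow : ∀ (n : ℕ) (v : W), (a ^ n) v = (T ^ n) v := by
    intro n v
    rw [ha, ← map_pow]
    rfl
  have hspec : ∀ z ∈ spectrum ℂ a, ‖z‖₊ < r.toNNReal := by
    intro z hz
    rw [ha, AlgEquiv.spectrum_eq, ← Module.End.hasEigenvalue_iff_mem_spectrum] at hz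
    rw [← NNReal.coe_lt_coe, Real.coe_toNNReal r hr.le]
    exact h z hz
  have h1 := spectrum.spectralRadius_lt_of_forall_lt a hspec
  have h2 := spectrum.pow_nnnorm_pow_one_div_tendsto_nhds_spectralRadius a
  obtain ⟨N, hN⟩ := eventually_atTop.mp ((tendsto_order.mp h2).2 _ h1)
  have h3 : ∀ n ≥ N + 1, ‖a ^ n‖ ≤ r ^ n := by
    intro n hn
    have h4 := hN n (by omega)
    have hn0 : (0 : ℝ) < n := by
      have : 0 < n := by omega
      exact_mod_cast this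
    have h5 : (‖a ^ n‖₊ : ENNReal) ≤ ((r.toNNReal : ENNReal)) ^ (n : ℝ) := by
      have h6 := ENNReal.rpow_le_rpow h4.le hn0.le
      rw [← ENNReal.rpow_mul, one_div, inv_mul_cancel₀ hn0.ne', ENNReal.rpow_one] at h6
      exact h6
    rw [ENNReal.rpow_natCast] at h5
    have h7 : ‖a ^ n‖₊ ≤ r.toNNReal ^ n := by exact_mod_cast h5
    have h8 : ((‖a ^ n‖₊ : NNReal) : ℝ) ≤ ((r.toNNReal ^ n : NNReal) : ℝ) := by exact_mod_cast h7
    rw [NNReal.coe_pow, Real.coe_toNNReal r hr.le] at h8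
    exact h8
  set C : ℝ := 1 + ∑ i ∈ Finset.range (N + 1), ‖a ^ i‖ / r ^ i with hC
  have hsum : 0 ≤ ∑ i ∈ Finset.range (N + 1), ‖a ^ i‖ / r ^ i :=
    Finset.sum_nonneg fun i _ => by positivity
  refine ⟨C, by rw [hC]; linarith, fun n v => ?_⟩
  rw [← hpow]
  refine ((a ^ n).le_opNorm v).trans (mul_le_mul_of_nonneg_right ?_ (norm_nonneg _))
  have hrn : 0 < r ^ n := by positivity
  by_cases hn : N + 1 ≤ n
  · calc ‖a ^ n‖ ≤ 1 * r ^ n := by rw [one_mul]; exact h3 n hn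
      _ ≤ C * r ^ n := mul_le_mul_of_nonneg_right (by rw [hC]; linarith) hrn.le
  · have h4 : ‖a ^ n‖ / r ^ n ≤ ∑ i ∈ Finset.range (N + 1), ‖a ^ i‖ / r ^ i :=
      Finset.single_le_sum (f := fun i => ‖a ^ i‖ / r ^ i) (fun i _ => by positivity)
        (Finset.mem_range.mpr (by omega))
    rw [div_le_iff₀ hrn] at h4
    refine h4.trans (mul_le_mul_of_nonneg_right (by rw [hC]; linarith) hrn.le)

end

section

variable {W : Type*} [NormedAddCommGroup W] [NormedSpace ℂ W] [FiniteDimensional ℂ W]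

/-- expanding part -/
noncomputable def Wu (T : End ℂ W) : Submodule ℂ W :=
  ⨆ μ ∈ {μ : ℂ | 1 < ‖μ‖}, T.maxGenEigenspace μ

/-- non-expanding part -/
noncomputable def Wc (T : End ℂ W) : Submodule ℂ W :=
  ⨆ μ ∈ {μ : ℂ | ‖μ‖ ≤ 1}, T.maxGenEigenspace μ

theorem W_compl (T : End ℂ W) : IsCompl (Wu T) (Wc T) := by
  constructor
  · apply iSupIndep.disjoint_biSup_biSup T.independent_maxGenEigenspace
    rw [Set.disjoint_left]
    intro μ h1 h2
    have h1' : 1 < ‖μ‖ := h1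
    have h2' : ‖μ‖ ≤ 1 := h2
    linarith
  · rw [codisjoint_iff, eq_top_iff, ← Module.End.iSup_maxGenEigenspace_eq_top T]
    refine iSup_le fun μ => ?_
    rcases lt_or_ge 1 ‖μ‖ with h | h
    · exact le_trans (le_biSup (fun μ => T.maxGenEigenspace μ) (show μ ∈ {μ : ℂ | 1 < ‖μ‖} from h))
        le_sup_left
    · exact le_trans (le_biSup (fun μ => T.maxGenEigenspace μ) (show μ ∈ {μ : ℂ | ‖μ‖ ≤ 1} from h))
        le_sup_right

omit [FiniteDimensional ℂ W] in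
theorem biSup_map (T : End ℂ W) (S : Set ℂ) :
    ∀ v ∈ (⨆ μ ∈ S, T.maxGenEigenspace μ : Submodule ℂ W),
      T v ∈ (⨆ μ ∈ S, T.maxGenEigenspace μ : Submodule ℂ W) := by
  have h : (⨆ μ ∈ S, T.maxGenEigenspace μ : Submodule ℂ W) ≤
      (⨆ μ ∈ S, T.maxGenEigenspace μ : Submodule ℂ W).comap T := by
    refine iSup₂_le fun μ hμ v hv => ?_
    have h1 := T.mapsTo_maxGenEigenspace_of_comm (Commute.refl T) μ hv
    exact (le_biSup (fun μ => T.maxGenEigenspace μ) hμ) h1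
  exact fun v hv => h hv

theorem Wu_map (T : End ℂ W) : ∀ v ∈ Wu T, T v ∈ Wu T := biSup_map T _
theorem Wc_map (T : End ℂ W) : ∀ v ∈ Wc T, T v ∈ Wc T := biSup_map T _

/-- restrictions -/
noncomputable def Tu (T : End ℂ W) : End ℂ (Wu T) := T.restrict (Wu_map T)
noncomputable def Tc (T : End ℂ W) : End ℂ (Wc T) := T.restrict (Wc_map T)

theorem Tu_coe (T : End ℂ W) (v : Wu T) : ((Tu T v : Wu T) : W) = T v := rfl
theorem Tc_coe (T : End ℂ W) (v : Wc T) : ((Tc T v : Wc T) : W) = T v := rfl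

theorem Tu_eig (T : End ℂ W) (ν : ℂ) (h : (Tu T).HasEigenvalue ν) : 1 < ‖ν‖ := by
  by_contra hcon
  push Not at hcon
  obtain ⟨v, hv⟩ := h.exists_hasEigenvector
  have h1 : Tu T v = ν • v := hv.apply_eq_smul
  have h2 : T (v : W) = ν • (v : W) := by
    have := congrArg (fun w : Wu T => (w : W)) h1
    exact this
  have h3 : (v : W) ∈ T.maxGenEigenspace ν :=
    Module.End.eigenspace_le_maxGenEigenspace (Module.End.mem_eigenspace_iff.mpr h2)
  have h4 : (v : W) ∈ Wc T :=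
    (le_biSup (fun μ => T.maxGenEigenspace μ) (show ν ∈ {μ : ℂ | ‖μ‖ ≤ 1} from hcon)) h3
  have h5 := (W_compl T).disjoint.le_bot ⟨v.2, h4⟩
  rw [Submodule.mem_bot] at h5
  exact hv.2 (Subtype.ext h5)

theorem Tc_eig (T : End ℂ W) (ν : ℂ) (h : (Tc T).HasEigenvalue ν) : ‖ν‖ ≤ 1 := by
  by_contra hcon
  push Not at hcon
  obtain ⟨v, hv⟩ := h.exists_hasEigenvector
  have h1 : Tc T v = ν • v := hv.apply_eq_smul
  have h2 : T (v : W) = ν • (v : W) := by
    have := congrArg (fun w : Wc T => (w : W)) h1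
    exact this
  have h3 : (v : W) ∈ T.maxGenEigenspace ν :=
    Module.End.eigenspace_le_maxGenEigenspace (Module.End.mem_eigenspace_iff.mpr h2)
  have h4 : (v : W) ∈ Wu T :=
    (le_biSup (fun μ => T.maxGenEigenspace μ) (show ν ∈ {μ : ℂ | 1 < ‖μ‖} from hcon)) h3
  have h5 := (W_compl T).disjoint.le_bot ⟨h4, v.2⟩
  rw [Submodule.mem_bot] at h5
  exact hv.2 (Subtype.ext h5)

/-- subexponential growth on the non-expanding part -/
theorem Tc_growth (T : End ℂ W) (δ : ℝ) (hδ : 0 < δ) :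
    ∃ C : ℝ, 0 ≤ C ∧ ∀ (n : ℕ) (v : Wc T), ‖((Tc T) ^ n) v‖ ≤ C * (1 + δ) ^ n * ‖v‖ :=
  pow_bound (Tc T) (1 + δ) (by linarith) fun ν hν => by
    have := Tc_eig T ν hν
    linarith

/-- the expanding part -/
theorem Tu_exp (T : End ℂ W) : ∃ C l : ℝ, 0 ≤ l ∧ l < 1 ∧
    ∀ (n : ℕ) (v : Wu T), ‖v‖ ≤ C * l ^ n * ‖((Tu T) ^ n) v‖ := by
  have hinj : Function.Injective (Tu T) := by
    rw [injective_iff_map_eq_zero]
    intro v hv
    by_contra hne
    have h1 : (Tu T).HasEigenvalue 0 := by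
      refine Module.End.hasEigenvalue_of_hasEigenvector (x := v) ⟨?_, hne⟩
      rw [Module.End.mem_eigenspace_iff, hv, zero_smul]
    have := Tu_eig T 0 h1
    rw [norm_zero] at this
    linarith
  let e : Wu T ≃ₗ[ℂ] Wu T := LinearEquiv.ofInjectiveEndo (Tu T) hinj
  have he : ∀ v, e v = Tu T v := fun v => rfl
  let R : End ℂ (Wu T) := e.symm.toLinearMap
  have hR : ∀ v, Tu T (R v) = v := fun v => e.apply_symm_apply v
  have hReig : ∀ ν : ℂ, R.HasEigenvalue ν → ‖ν‖ < 1 := by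
    intro ν hν
    obtain ⟨v, hv⟩ := hν.exists_hasEigenvector
    have h1 : R v = ν • v := hv.apply_eq_smul
    have h2 : v = ν • Tu T v := by
      rw [← map_smul, ← h1, hR]
    have hν0 : ν ≠ 0 := by
      rintro rfl
      rw [zero_smul] at h2
      exact hv.2 h2
    have h3 : (Tu T).HasEigenvalue ν⁻¹ := by
      refine Module.End.hasEigenvalue_of_hasEigenvector (x := v) ⟨?_, hv.2⟩
      rw [Module.End.mem_eigenspace_iff]
      conv_rhs => rw [h2]
      rw [smul_smul, inv_mul_cancel₀ hν0, one_smul]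
    have h4 := Tu_eig T _ h3
    rw [norm_inv] at h4
    have h5 : 0 < ‖ν‖ := norm_pos_iff.mpr hν0
    rwa [one_lt_inv₀ h5] at h4
  obtain ⟨l, hl0, hl1, hl⟩ : ∃ l : ℝ, 0 < l ∧ l < 1 ∧ ∀ ν : ℂ, R.HasEigenvalue ν → ‖ν‖ < l := by
    have hfin : Set.Finite {ν : ℂ | R.HasEigenvalue ν} := R.finite_hasEigenvalue
    have h1 : ∀ᶠ l : ℝ in 𝓝[<] 1, ∀ ν ∈ {ν : ℂ | R.HasEigenvalue ν}, ‖ν‖ < l := by
      rw [hfin.eventually_all]
      intro ν hν
      exact (lt_mem_nhds (hReig ν hν)).filter_mono nhdsWithin_le_nhds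
    have h2 : ∀ᶠ l : ℝ in 𝓝[<] 1, 0 < l :=
      (lt_mem_nhds (zero_lt_one' ℝ)).filter_mono nhdsWithin_le_nhds
    obtain ⟨l, hl⟩ := (h1.and (h2.and self_mem_nhdsWithin)).exists
    exact ⟨l, hl.2.1, hl.2.2, hl.1⟩
  obtain ⟨C, hC, hb⟩ := pow_bound R l hl0 hl
  refine ⟨C, l, hl0.le, hl1, fun n v => ?_⟩
  have h1 := hb n (((Tu T) ^ n) v)
  have h2 : ∀ n : ℕ, ∀ v, (R ^ n) (((Tu T) ^ n) v) = v := by
    intro n
    induction n with
    | zero => intro v; rfl
    | succ n ih =>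
      intro v
      rw [pow_succ, pow_succ' (Tu T)]
      show (R ^ n) (R (Tu T (((Tu T) ^ n) v))) = v
      have h3 : R (Tu T (((Tu T) ^ n) v)) = ((Tu T) ^ n) v := e.symm_apply_apply _
      rw [h3, ih]
  rwa [h2] at h1

end

end Pool.Agent.W740.TC
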